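import Pool.Agent.Lib.MP_fee02f_an.CT.Hull
import Pool.Agent.Lib.MP_fee02f_an.TT.T03

/-!
# MP_fee02f_an: property (RD) for groups of isometries of `CAT(0)` spaces and of other uniformly
convex spaces
-/

set_option autoImplicit false

namespace Pool.Agent.Results.MP_fee02f_an.RapidDecayConvexSpaces

/-- the `ℓ²`-norm of an element of the complex group algebra -/
noncomputable def l2 {Γ : Type*} (f : MonoidAlgebra ℂ Γ) : ℝ :=
  Real.sqrt (f.coeff.sum fun _ c => ‖c‖ ^ 2)

/-- the norm `‖f‖_{H^s}`, that is the `ℓ²`-norm of `g ↦ (1 + ℓ g)^s f(g)` -/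
noncomputable def sob {Γ : Type*} (ℓ : Γ → ℝ) (s : ℝ) (f : MonoidAlgebra ℂ Γ) : ℝ :=
  Real.sqrt (f.coeff.sum fun g c => ((1 + ℓ g) ^ s * ‖c‖) ^ 2)

/-- property (RD) with respect to `ℓ`: `ℓ` is a length function and there are constants `C`, `s ≥ 0`
such that left convolution by every `f` in the group algebra has norm at most `C ‖f‖_{H^s}` on
`ℓ²(Γ)` -/
def PropertyRDFor {Γ : Type*} [Group Γ] (ℓ : Γ → ℝ) : Prop :=
  (∀ g, 0 ≤ ℓ g) ∧ (∀ g, ℓ g⁻¹ = ℓ g) ∧ (∀ g h, ℓ (g * h) ≤ ℓ g + ℓ h) ∧
    ∃ C s : ℝ, 0 ≤ s ∧ ∀ f g : MonoidAlgebra ℂ Γ, l2 (f * g) ≤ C * sob ℓ s f * l2 g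

/-- property (RD) -/
def PropertyRD (Γ : Type*) [Group Γ] : Prop := ∃ ℓ : Γ → ℝ, PropertyRDFor ℓ

/-- `X` is a `CAT(0)` space in the sense of the inequality of Bruhat and Tits: for all `x`, `y` there
is a point `m` with `d(z,m)² ≤ (d(z,x)² + d(z,y)²)/2 - d(x,y)²/4` for all `z` (a complete metric space
has this property if and only if it is `CAT(0)`, and every `CAT(0)` space has it) -/
def IsCAT0 (X : Type*) [PseudoMetricSpace X] : Prop :=
  ∀ x y : X, ∃ m : X, ∀ z : X,
    dist z m ^ 2 ≤ (dist z x ^ 2 + dist z y ^ 2) / 2 - dist x y ^ 2 / 4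

/-- `X` is hyperbolic in the sense of Gromov (four point condition) and has rough midpoints -/
def IsHyperbolic (X : Type*) [PseudoMetricSpace X] : Prop :=
  ∃ δ : ℝ, (∀ x y z w : X,
    dist x y + dist z w ≤ max (dist x z + dist y w) (dist x w + dist y z) + δ) ∧
    ∀ x y : X, ∃ m : X, dist x m ≤ dist x y / 2 + δ ∧ dist y m ≤ dist x y / 2 + δ

/-- coarse uniform convexity: for every `ε > 0` there is `δ > 0` such that for all large `R` the
intersection of two balls of radius `R` with centres at distance at least `ε R` is contained in a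
ball of radius `(1 - δ) R` -/
def CoarselyUniformlyConvex (X : Type*) [PseudoMetricSpace X] : Prop :=
  ∀ ε : ℝ, 0 < ε → ∃ δ R₀ : ℝ, 0 < δ ∧ ∀ R : ℝ, R₀ ≤ R → ∀ x y : X, ε * R ≤ dist x y →
    ∃ m : X, ∀ z : X, dist x z ≤ R → dist y z ≤ R → dist m z ≤ (1 - δ) * R

/-- finite Assouad-Nagata dimension at large scales: there are `c`, `N` such that for every `s ≥ 1`
there is a cover of `X` by sets of diameter at most `c s` such that every set of diameter at most
`s` meets at most `N` of them -/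
def FiniteNagataDimension (X : Type*) [PseudoMetricSpace X] : Prop :=
  ∃ (c : ℝ) (N : ℕ), ∀ s : ℝ, 1 ≤ s → ∃ 𝒰 : Set (Set X), (∀ x, ∃ U ∈ 𝒰, x ∈ U) ∧
    (∀ U ∈ 𝒰, ∀ x ∈ U, ∀ y ∈ U, dist x y ≤ c * s) ∧
    ∀ B : Set X, (∀ x ∈ B, ∀ y ∈ B, dist x y ≤ s) → {U ∈ 𝒰 | (U ∩ B).Nonempty}.encard ≤ N

/-- `Γ` acts by isometries -/
def Isometric (Γ X : Type*) [Group Γ] [PseudoMetricSpace X] [MulAction Γ X] : Prop :=
  ∀ (g : Γ) (x y : X), dist (g • x) (g • y) = dist x y

/-- the action of `Γ` on `X` is uniformly discrete: for every `R` the numbers of elements `g` with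
`d(g x, x) ≤ R` are bounded over all points `x` -/
def UniformlyDiscrete (Γ X : Type*) [Group Γ] [PseudoMetricSpace X] [MulAction Γ X] : Prop :=
  ∀ R : ℝ, ∃ b : ℕ, ∀ x : X, {g : Γ | dist (g • x) x ≤ R}.encard ≤ b

/-- the topological group `G` acts on `X` by isometries, continuously (the maps `g ↦ g x` are
continuous), properly (the set of all `g` with `d(g x, x) ≤ R` is contained in a compact set) and
coboundedly (the orbit of some point is coarsely dense) -/
def ActsGeometrically (G X : Type*) [Group G] [TopologicalSpace G] [PseudoMetricSpace X]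
    [MulAction G X] : Prop :=
  Isometric G X ∧ (∀ x : X, Continuous fun g : G => g • x) ∧
    (∀ (x : X) (R : ℝ), ∃ K : Set G, IsCompact K ∧ ∀ g : G, dist (g • x) x ≤ R → g ∈ K) ∧
    ∃ (o : X) (D : ℝ), ∀ x : X, ∃ g : G, dist (g • o) x ≤ D

/-- a cocompact lattice: a discrete subgroup with compact quotient -/
def IsCocompactLattice {G : Type*} [Group G] [TopologicalSpace G] (Γ : Subgroup G) : Prop :=
  DiscreteTopology Γ ∧ CompactSpace (G ⧸ Γ)

theorem isometric_rd {Γ X : Type*} [Group Γ] [PseudoMetricSpace X] [MulAction Γ X]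
    (h : Isometric Γ X) (hX : CoarselyUniformlyConvex X) (hN : FiniteNagataDimension X)
    (hU : UniformlyDiscrete Γ X) (o : X) : PropertyRDFor fun g : Γ => dist (g • o) o := by
  refine ⟨fun g => dist_nonneg, fun g => ?_, fun g g' => ?_, RapidDecay.UC.rd h hX hN hU o⟩
  · show dist (g⁻¹ • o) o = dist (g • o) o
    rw [← h g, smul_inv_smul, dist_comm]
  · show dist ((g * g') • o) o ≤ dist (g • o) o + dist (g' • o) o
    refine (dist_triangle _ (g • o) _).trans ?_
    rw [mul_smul, h g, add_comm]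

theorem convex_of_hyperbolic {X : Type*} [PseudoMetricSpace X] (h : IsHyperbolic X) :
    CoarselyUniformlyConvex X := by
  obtain ⟨δ, h4, hm⟩ := h
  intro ε hε
  refine ⟨ε / 4, 8 * |δ| / ε, by positivity, fun R hR x y hxy => ?_⟩
  obtain ⟨m, h1, h2⟩ := hm x y
  refine ⟨m, fun z hxz hyz => ?_⟩
  have h3 := h4 m z x y
  rw [dist_comm m x, dist_comm m y, dist_comm z x, dist_comm z y] at h3
  have h5 : 8 * |δ| ≤ R * ε := (div_le_iff₀ hε).1 hR
  have h6 : δ ≤ |δ| := le_abs_self δ
  have h7 : max (dist x m + dist y z) (dist y m + dist x z) ≤ dist x y / 2 + δ + R :=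
    max_le (by linarith) (by linarith)
  nlinarith

/-- Property (RD) for
1. uniformly discrete groups of isometries of coarsely uniformly convex spaces of finite
   Assouad-Nagata dimension;
2. cocompact lattices in topological groups which act geometrically on such a space.
3. `CAT(0)` spaces and Gromov hyperbolic spaces are coarsely uniformly convex. -/
theorem result.{u, v} :
    (∀ (X : Type u) [PseudoMetricSpace X], CoarselyUniformlyConvex X → FiniteNagataDimension X →
      (∀ (Γ : Type v) [Group Γ] [MulAction Γ X], Isometric Γ X → UniformlyDiscrete Γ X →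
        ∀ o : X, PropertyRDFor fun g : Γ => dist (g • o) o) ∧
      ∀ (G : Type v) [Group G] [TopologicalSpace G] [IsTopologicalGroup G] [T2Space G]
        [MulAction G X], ActsGeometrically G X →
        ∀ Γ : Subgroup G, IsCocompactLattice Γ → PropertyRD Γ) ∧
    ∀ (X : Type u) [PseudoMetricSpace X], IsCAT0 X ∨ IsHyperbolic X →
      CoarselyUniformlyConvex X := by
  refine ⟨fun X _ hX hN => ⟨fun Γ _ _ h hU o => isometric_rd h hX hN hU o, ?_⟩, fun X _ h => ?_⟩
  · intro G _ _ _ _ _ hG Γ hΓ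
    obtain ⟨hiso, hcont, hprop, o, D, hD⟩ := hG
    obtain ⟨h1, h2⟩ := hΓ
    have hloc : ∃ K ∈ nhds (1 : G), IsCompact K := by
      obtain ⟨K, hK, hK'⟩ := hprop o 1
      refine ⟨K, ?_, hK⟩
      have h3 : IsOpen {g : G | dist (g • o) o < 1} :=
        isOpen_lt ((hcont o).dist continuous_const) continuous_const
      refine Filter.mem_of_superset (h3.mem_nhds ?_) fun g hg => hK' g (le_of_lt hg)
      show dist ((1 : G) • o) o < 1
      rw [one_smul, dist_self]
      exact one_pos
    have hud := RDT.udisc_of_cocompact hloc Γ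
    have hiso' : Isometric Γ X := fun g x y => hiso (g : G) x y
    have hU : UniformlyDiscrete Γ X := by
      intro R
      obtain ⟨K, hK, hK'⟩ := hprop o (R + 2 * D)
      obtain ⟨b, hb⟩ := hud K hK
      refine ⟨b, fun x => ?_⟩
      obtain ⟨g, hg⟩ := hD x
      refine le_trans (Set.encard_le_encard ?_) (hb g)
      intro γ hγ
      have hγ' : dist ((γ : G) • x) x ≤ R := hγ
      refine hK' _ ?_
      show dist ((g⁻¹ * (γ : G) * g) • o) o ≤ R + 2 * D
      have h3 : dist ((g⁻¹ * (γ : G) * g) • o) o = dist ((γ : G) • g • o) (g • o) := by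
        rw [← hiso g ((g⁻¹ * (γ : G) * g) • o) o, mul_smul, mul_smul, smul_inv_smul]
      have h4 : dist ((γ : G) • g • o) ((γ : G) • x) ≤ D := by
        rw [hiso]
        exact hg
      have h5 := dist_triangle4 ((γ : G) • g • o) ((γ : G) • x) x (g • o)
      rw [dist_comm x (g • o)] at h5
      rw [h3]
      linarith
    exact ⟨_, isometric_rd hiso' hX hN hU o⟩
  · rcases h with h | h
    · exact RapidDecay.UC.convex_of_cat0 h
    · exact convex_of_hyperbolic h

end Pool.Agent.Results.MP_fee02f_an.RapidDecayConvexSpaces
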