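import Pool.Agent.Lib.MP_fee02f_an.RL.Fin
import Pool.Agent.Lib.MP_fee02f_an.TT.T12
import Pool.Agent.Lib.MP_fee02f_an.TT.T13

/-!
# MP_fee02f_an: property (RD) for cocompact lattices in reductive groups over local fields
-/

set_option autoImplicit false

namespace Pool.Agent.Results.MP_fee02f_an.RapidDecayReductive

/-- the `ℓ²`-norm of an element of the complex group algebra -/
noncomputable def l2 {Γ : Type*} (f : MonoidAlgebra ℂ Γ) : ℝ :=
  Real.sqrt (f.coeff.sum fun _ c => ‖c‖ ^ 2)

/-- the norm `‖f‖_{H^s}`, that is the `ℓ²`-norm of `g ↦ (1 + ℓ g)^s f(g)` -/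
noncomputable def sob {Γ : Type*} (ℓ : Γ → ℝ) (s : ℝ) (f : MonoidAlgebra ℂ Γ) : ℝ :=
  Real.sqrt (f.coeff.sum fun g c => ((1 + ℓ g) ^ s * ‖c‖) ^ 2)

/-- property (RD): there are a length function `ℓ` and constants `C`, `s ≥ 0` such that left
convolution by every `f` in the group algebra has norm at most `C ‖f‖_{H^s}` on `ℓ²(Γ)` -/
def PropertyRD (Γ : Type*) [Group Γ] : Prop :=
  ∃ ℓ : Γ → ℝ, (∀ g, 0 ≤ ℓ g) ∧ (∀ g, ℓ g⁻¹ = ℓ g) ∧ (∀ g h, ℓ (g * h) ≤ ℓ g + ℓ h) ∧
    ∃ C s : ℝ, 0 ≤ s ∧ ∀ f g : MonoidAlgebra ℂ Γ, l2 (f * g) ≤ C * sob ℓ s f * l2 g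

/-- a cocompact lattice: a discrete subgroup with compact quotient -/
def IsCocompactLattice {G : Type*} [Group G] [TopologicalSpace G] (Γ : Subgroup G) : Prop :=
  DiscreteTopology Γ ∧ CompactSpace (G ⧸ Γ)

/-- `G ≤ GL_n(ℝ)` is Zariski closed (the set of zeros of polynomials in the entries), and the only
normal subgroup of `G` which consists of unipotent matrices is the trivial one (`G` has trivial
unipotent radical). If `𝐆 ≤ GL_n` is a connected reductive group over `ℝ`, then `G = 𝐆(ℝ)` has this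
property. -/
def RealReductive {n : ℕ} (G : Subgroup (GL (Fin n) ℝ)) : Prop :=
  (∃ S : Set (MvPolynomial (Fin n × Fin n) ℝ), ∀ g, g ∈ G ↔
    ∀ p ∈ S, MvPolynomial.eval (fun q => g.1 q.1 q.2) p = 0) ∧
  ∀ N : Subgroup G, N.Normal → (∀ g ∈ N, IsNilpotent ((g : GL (Fin n) ℝ).1 - 1)) → N = ⊥

/-- the orders of the finite subgroups of `Γ` are bounded -/
def BoundedFiniteSubgroups (Γ : Type*) [Group Γ] : Prop :=
  ∃ b : ℕ, ∀ H : Subgroup Γ, (H : Set Γ).Finite → (H : Set Γ).ncard ≤ b

/-- local fields: fields with an absolute value whose balls are compact (`ℝ`, `ℂ`, finite extensions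
of `ℚ_p` and of `𝔽_p((t))` with their norms), and non-archimedean local fields in the sense of
Mathlib -/
inductive LocalField.{u} : (F : Type u) → Field F → TopologicalSpace F → Prop
  | normed (F : Type u) [NontriviallyNormedField F] [ProperSpace F] :
      LocalField F inferInstance inferInstance
  | nonarchimedean (F : Type u) [Field F] [ValuativeRel F] [TopologicalSpace F]
      [IsNonarchimedeanLocalField F] : LocalField F inferInstance inferInstance

/-- a rational representation of `GL_n` over `F`: the matrix coefficients of `ρ g` are polynomials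
in the entries of `g` divided by a power of the determinant of `g` -/
def IsRational {F : Type*} [Field F] {n M : ℕ} (ρ : GL (Fin n) F →* GL (Fin M) F) : Prop :=
  ∃ (k : ℕ) (P : Fin M → Fin M → MvPolynomial (Fin n × Fin n) F), ∀ (g : GL (Fin n) F) (i j : Fin M),
    (ρ g).1 i j * g.1.det ^ k = MvPolynomial.eval (fun p => g.1 p.1 p.2) (P i j)

/-- `G ≤ GL_n(F)` is the stabiliser of a vector with closed orbit in a rational representation of
`GL_n` over `F`. By the theorem of Matsushima and Richardson (a smooth closed subgroup `𝐆` of `GL_n` is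
reductive if and only if `GL_n / 𝐆` is affine) this holds for `G = 𝐆(F)` if `𝐆` is reductive. -/
def ClosedOrbitStabilizer {F : Type*} [Field F] [TopologicalSpace F] {n : ℕ}
    (G : Subgroup (GL (Fin n) F)) : Prop :=
  ∃ (M : ℕ) (ρ : GL (Fin n) F →* GL (Fin M) F) (w : Fin M → F), IsRational ρ ∧
    IsClosed (Set.range fun g => (ρ g).1.mulVec w) ∧ ∀ g, g ∈ G ↔ (ρ g).1.mulVec w = w

/-- the matrix `x diag(χ₁(s), ..., χₙ(s)) x⁻¹`, `χᵢ(s) = ∏ⱼ sⱼ ^ (a i j)` -/
noncomputable def torusMatrix {F : Type*} [Field F] {n r : ℕ} (x : GL (Fin n) F)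
    (a : Fin n → Fin r → ℤ) (s : Fin r → Fˣ) : Matrix (Fin n) (Fin n) F :=
  x.1 * Matrix.diagonal (fun i => ∏ j, (s j : F) ^ a i j) * (x⁻¹).1

/-- `G ≤ GL_n(F)` is closed and has a Cartan decomposition `G = C T C` with a compact set `C` and a
split torus `T = {x diag(χ₁(s), ..., χₙ(s)) x⁻¹ : s ∈ (F^×)^r}`, where `χᵢ(s) = ∏ⱼ sⱼ ^ (a i j)`.
(The group of points of every reductive group over every local field has such a decomposition.) -/
def CartanDecomposition {F : Type*} [Field F] [TopologicalSpace F] {n : ℕ}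
    (G : Subgroup (GL (Fin n) F)) : Prop :=
  IsClosed (G : Set (GL (Fin n) F)) ∧
    ∃ (r : ℕ) (x : GL (Fin n) F) (a : Fin n → Fin r → ℤ) (C : Set (GL (Fin n) F)),
      IsCompact C ∧ (∀ k ∈ C, k ∈ G) ∧ (∀ s : Fin r → Fˣ, ∃ t ∈ G, t.1 = torusMatrix x a s) ∧
      ∀ g ∈ G, ∃ k ∈ C, ∃ k' ∈ C, ∃ s : Fin r → Fˣ, g.1 = k.1 * torusMatrix x a s * k'.1

/-- `G ≤ GL_n(F)` is closed and all compact subgroups of `G` are conjugate in `G` into one compact
set. (For the group of points of a reductive group over a non-archimedean local field this is a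
consequence of the theorem of Bruhat and Tits on maximal compact subgroups.) -/
def CompactSubgroupsConjugate {F : Type*} [Field F] [TopologicalSpace F] {n : ℕ}
    (G : Subgroup (GL (Fin n) F)) : Prop :=
  IsClosed (G : Set (GL (Fin n) F)) ∧ ∃ M : Set G, IsCompact M ∧
    ∀ C : Subgroup G, IsCompact (C : Set G) → ∃ l : G, ∀ c ∈ C, l⁻¹ * c * l ∈ M

/-- reductive groups over local fields of any characteristic, in three descriptions -/
inductive ReductiveGroup.{u} : (G : Type u) → Group G → TopologicalSpace G → Prop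
  | closedOrbit (F : Type u) [hF : Field F] [hT : TopologicalSpace F] (h : LocalField F hF hT)
      (n : ℕ) (G : Subgroup (GL (Fin n) F)) (hG : ClosedOrbitStabilizer G) :
      ReductiveGroup G inferInstance inferInstance
  | cartan (F : Type u) [hF : Field F] [hT : TopologicalSpace F] (h : LocalField F hF hT)
      (n : ℕ) (G : Subgroup (GL (Fin n) F)) (hG : CartanDecomposition G) :
      ReductiveGroup G inferInstance inferInstance
  | compactSubgroups (F : Type u) [Field F] [ValuativeRel F] [TopologicalSpace F]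
      [IsNonarchimedeanLocalField F] (n : ℕ) (G : Subgroup (GL (Fin n) F))
      (hG : CompactSubgroupsConjugate G) : ReductiveGroup G inferInstance inferInstance

/-- the homomorphism `φ : Γ → G` is uniformly proper: for every compact set `K` the numbers of
elements `γ` with `φ γ` in a conjugate `h K h⁻¹` are bounded (for the inclusion of a subgroup `Γ`:
`Γ` is uniformly discrete) -/
def UniformlyDiscrete {Γ G : Type*} [Group Γ] [Group G] [TopologicalSpace G] (φ : Γ →* G) : Prop :=
  ∀ K : Set G, IsCompact K → ∃ b : ℕ, ∀ h : G, {γ : Γ | h⁻¹ * φ γ * h ∈ K}.encard ≤ b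

theorem localField_vtop {F : Type*} (hF : Field F) (hT : TopologicalSpace F)
    (h : LocalField F hF hT) : IsTopologicalRing F ∧ T2Space F ∧
      ∃ v : AbsoluteValue F ℝ, RDG.VTop F v := by
  cases h with
  | normed =>
    obtain ⟨v, -, hv⟩ := RDT.vtop_of_proper F
    exact ⟨inferInstance, inferInstance, v, hv⟩
  | nonarchimedean =>
    exact ⟨inferInstance, RDT.t2_nonarch F, RDG.vtop_nonarch F⟩

theorem reductive_good.{u} (G : Type u) (i1 : Group G) (i2 : TopologicalSpace G)
    (h : ReductiveGroup G i1 i2) : T2Space G ∧ IsTopologicalGroup G ∧ RDT.AdmH.{u, u} G := by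
  cases h with
  | closedOrbit F h n G hG =>
    obtain ⟨h1, h2, v, hv⟩ := localField_vtop _ _ h
    obtain ⟨M, ρ, w, hρ, hw, hG⟩ := hG
    exact ⟨inferInstance, inferInstance, RDT.admH_closedOrbit hv G ρ hρ w hw hG⟩
  | cartan F h n G hG =>
    obtain ⟨h1, h2, v, hv⟩ := localField_vtop _ _ h
    exact ⟨inferInstance, inferInstance, RDT.admH_cartan hv G hG⟩
  | compactSubgroups F n G hG =>
    have := RDT.t2_nonarch F
    exact ⟨inferInstance, inferInstance, RDT.admH_compactSubgroups F n G hG.1 hG.2⟩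

theorem rd_of {Γ : Type*} [Group Γ] (h : RapidDecay.PropertyRD Γ) : PropertyRD Γ := by
  obtain ⟨ℓ, hℓ, hrd⟩ := h
  exact ⟨ℓ, hℓ.nonneg, hℓ.inv, hℓ.mul_le, hrd⟩

/-- Property (RD) for
1. cocompact lattices in reductive groups over `ℝ` (connectedness is not needed);
2. all discrete subgroups of `GL_n(F)`, `F` a non-archimedean local field of characteristic zero, and
   discrete subgroups with bounded finite subgroups for all non-archimedean local fields;
3. cocompact lattices in finite products of reductive groups over local fields of any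
   characteristic, and groups with a uniformly proper homomorphism to such a product. -/
theorem result.{u} :
    (∀ (n : ℕ) (G : Subgroup (GL (Fin n) ℝ)), RealReductive G →
      ∀ Γ : Subgroup G, IsCocompactLattice Γ → PropertyRD Γ) ∧
    (∀ (F : Type u) [Field F] [ValuativeRel F] [TopologicalSpace F] [IsNonarchimedeanLocalField F]
      (n : ℕ) (Γ : Subgroup (GL (Fin n) F)), DiscreteTopology Γ →
      CharZero F ∨ BoundedFiniteSubgroups Γ → PropertyRD Γ) ∧
    (∀ (I : Type) [Finite I] (G : I → Type u) [∀ i, Group (G i)] [∀ i, TopologicalSpace (G i)],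
      (∀ i, ReductiveGroup (G i) inferInstance inferInstance) →
      (∀ Γ : Subgroup (∀ i, G i), IsCocompactLattice Γ → PropertyRD Γ) ∧
      ∀ (Γ : Type u) [Group Γ] (φ : Γ →* ∀ i, G i), UniformlyDiscrete φ → PropertyRD Γ) := by
  refine ⟨?_, ?_, ?_⟩
  · intro n G hG Γ hΓ
    obtain ⟨h1, h2⟩ := hΓ
    exact rd_of (RDT.rd_real n G Γ
      (Pool.Agent.Lib.MP_fee02f_an.RL.real_reductive_ud G hG.1 hG.2 Γ h1 h2))
  · intro F _ _ _ _ n Γ hΓ h
    rcases h with h | h
    · exact rd_of (RDT.rd_nonarch_charZero F n Γ)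
    · exact rd_of (RDT.rd_nonarch F n Γ h)
  · intro I _ G _ _ hG
    have hg := fun i => reductive_good (G i) _ _ (hG i)
    have h1 : ∀ i, T2Space (G i) := fun i => (hg i).1
    have h2 : ∀ i, IsTopologicalGroup (G i) := fun i => (hg i).2.1
    have hA : RDT.AdmH.{u, u} (∀ i, G i) := RDT.AdmH.pi G fun i => (hg i).2.2
    refine ⟨fun Γ hΓ => ?_, fun Γ _ φ hφ => rd_of (hA.rd φ hφ)⟩
    obtain ⟨h3, h4⟩ := hΓ
    exact rd_of (hA.rd Γ.subtype (RDT.udisc_of_cocompact hA.1 Γ))

end Pool.Agent.Results.MP_fee02f_an.RapidDecayReductive
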